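import Pool.Agent.Lib.FW.SpecF

/-! FW, part F: Ferrero-Washington for real abelian fields (helper47). -/

set_option autoImplicit false

open scoped Pointwise

namespace Pool.Agent.FW

open Pool.Agent.MuZ

private theorem FX_loc (p : ℕ) : LocO p ⊆ Loc p := by
  rintro Λ ⟨P, h1, h2, -, h3⟩
  exact Or.inl ⟨P, h1, h2, h3⟩

private theorem FX_mono (p : ℕ) (W : Subgroup Gal(Om/ℚ)) :
    VV p (Loc p) W ≤ VV p (LocO p) W := by
  rintro g ⟨h1, h2, h3, h4⟩
  exact ⟨h1, h2, h3, fun Λ hΛ => h4 Λ (FX_loc p hΛ)⟩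

theorem tFX : S_FX := by
  intro hFW hFU hRes hBwd hSup p _ hp2 k hk hk'
  obtain ⟨f, hf, hpf, hle, O, hO⟩ := hFU p hp2 k hk'
  haveI h1 : Finite (VV p (LocO p) (UU p f)) := hFW p f hp2 hf hpf
  have h2 : Finite (VV p (Loc p) (UU p f)) :=
    Finite.of_injective _ (Submodule.inclusion_injective (FX_mono p (UU p f)))
  have h3 := hRes Gal(Om/ℚ) p (Loc p) (UU p f) (cyc p k).fixingSubgroup O hle hO h2
  exact hBwd hSup p (cyc p k) h3

end Pool.Agent.FW
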