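import Pool.Agent.Lib.FW.SpecF

/-!
# FW, part F: real abelian fields are normal (helper73)
-/

set_option autoImplicit false

open scoped Pointwise

noncomputable section

namespace Pool.Agent.FW

open Pool.Agent.MuZ

private theorem RN_pow {m : ℕ} (hm : 0 < m) {z : Om} (hz : z ^ m = 1) (σ : Gal(Om/ℚ)) :
    ∃ s : ℕ, σ z = z ^ s := by
  have h1 : IsPrimitiveRoot z (orderOf z) := IsPrimitiveRoot.orderOf z
  have h0 : 0 < orderOf z := orderOf_pos_iff.2 (isOfFinOrder_iff_pow_eq_one.2 ⟨m, hm, hz⟩)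
  have : NeZero (orderOf z) := ⟨h0.ne'⟩
  have h2 : (σ z) ^ orderOf z = 1 := by
    rw [← map_pow, pow_orderOf_eq_one, map_one]
  obtain ⟨i, -, hi⟩ := h1.eq_pow_of_pow_eq_one h2
  exact ⟨i, hi.symm⟩

private theorem RN_comm {m : ℕ} (hm : 0 < m) {z : Om} (hz : z ^ m = 1) (σ τ : Gal(Om/ℚ)) :
    σ (τ z) = τ (σ z) := by
  obtain ⟨s, hs⟩ := RN_pow hm hz σ
  obtain ⟨t, ht⟩ := RN_pow hm hz τ
  rw [ht, hs, map_pow, map_pow, ht, hs, ← pow_mul, ← pow_mul, mul_comm]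

theorem tRN : S_RN := by
  intro k ⟨m, hm, hk⟩ σ x hx
  rw [← InfiniteGalois.fixedField_fixingSubgroup k, IntermediateField.mem_fixedField_iff]
  intro τ hτ
  have hc : τ⁻¹ * σ⁻¹ * τ * σ ∈ k.fixingSubgroup := by
    refine hk _ (Or.inl fun z hz => ?_)
    change τ⁻¹ (σ⁻¹ (τ (σ z))) = z
    rw [← RN_comm hm hz σ τ]
    have h1 : σ⁻¹ (σ (τ z)) = τ z := by
      rw [← AlgEquiv.mul_apply, inv_mul_cancel, AlgEquiv.one_apply]
    rw [h1, ← AlgEquiv.mul_apply, inv_mul_cancel, AlgEquiv.one_apply]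
  have h2 : σ⁻¹ * τ * σ ∈ k.fixingSubgroup := by
    have h3 : σ⁻¹ * τ * σ = τ * (τ⁻¹ * σ⁻¹ * τ * σ) := by group
    rw [h3]
    exact k.fixingSubgroup.mul_mem hτ hc
  have h4 : (σ⁻¹ * τ * σ) x = x := (IntermediateField.mem_fixingSubgroup_iff k _).1 h2 x hx
  have h5 : σ ((σ⁻¹ * τ * σ) x) = τ (σ x) := by
    rw [← AlgEquiv.mul_apply, ← AlgEquiv.mul_apply]
    congr 1
    group
  rw [← h5, h4]

end Pool.Agent.FW
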