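import Pool.Agent.Lib.FW.SpecF

/-!
# No characters, no extensions (`S_KK0`)
-/

open scoped Pointwise

noncomputable section

namespace Pool.Agent.FW

open Pool.Agent.MuZ

private theorem KK0_dual' (p : ℕ) [Fact p.Prime] {A : Type} [AddCommGroup A]
    [Module (ZMod p) A] {v : A} (hv : v ≠ 0) : ∃ φ : A →+ ZMod p, φ v ≠ 0 := by
  have h1 : Module.Free (ZMod p) A := Module.Free.of_divisionRing (ZMod p) A
  have h2 : Module.Projective (ZMod p) A := Module.Projective.of_free
  obtain ⟨φ, hφ⟩ := Module.Projective.exists_dual_ne_zero (ZMod p) hv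
  exact ⟨φ.toAddMonoidHom, hφ⟩

/-- A nonzero element of a group killed by `p` is detected by a homomorphism to `F_p`. -/
private theorem KK0_dual (p : ℕ) [Fact p.Prime] {A : Type} [AddCommGroup A]
    (h : ∀ x : A, p • x = 0) {v : A} (hv : v ≠ 0) : ∃ φ : A →+ ZMod p, φ v ≠ 0 := by
  let M : Module (ZMod p) A := AddCommGroup.zmodModule h
  exact @KK0_dual' p _ A _ M v hv

/-- In a commutative group of exponent `p ^ a` a subgroup on which no nonzero homomorphism to `F_p` vanishes is everything. -/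
private theorem KK0_grp {Q : Type} [CommGroup Q] (p : ℕ) [Fact p.Prime] (a : ℕ)
    (ha : ∀ q : Q, q ^ p ^ a = 1) (B : Subgroup Q)
    (hB : ∀ f : Q → ZMod p, (∀ x y, f (x * y) = f x + f y) → (∀ b ∈ B, f b = 0) → ∀ x, f x = 0) :
    ∀ q : Q, q ∈ B := by
  have h1 : ∀ q : Q, ∃ t ∈ B, ∃ r : Q, q = t * r ^ p := by
    intro q
    by_contra hq
    have hN : q ∉ B ⊔ (powMonoidHom p : Q →* Q).range := by
      intro h
      obtain ⟨t, ht, s, ⟨r, hr⟩, hts⟩ := Subgroup.mem_sup.1 h
      exact hq ⟨t, ht, r, by rw [← hts, ← hr]; rfl⟩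
    obtain ⟨N, hNdef⟩ : ∃ N : Subgroup Q, N = B ⊔ (powMonoidHom p : Q →* Q).range := ⟨_, rfl⟩
    rw [← hNdef] at hN
    have hpN : ∀ r : Q, r ^ p ∈ N := by
      intro r
      rw [hNdef]
      exact Subgroup.mem_sup_right ⟨r, rfl⟩
    have hBN : ∀ b ∈ B, b ∈ N := by
      intro b hb
      rw [hNdef]
      exact Subgroup.mem_sup_left hb
    have hp0 : ∀ x : Additive (Q ⧸ N), p • x = 0 := by
      intro x
      obtain ⟨r, hr⟩ := QuotientGroup.mk_surjective (s := N) x.toMul
      have h2 : x = Additive.ofMul ((r : Q ⧸ N)) := by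
        rw [hr]
        rfl
      rw [h2, ← ofMul_pow, ← QuotientGroup.mk_pow, (QuotientGroup.eq_one_iff _).2 (hpN r)]
      rfl
    have hv : (Additive.ofMul ((q : Q ⧸ N)) : Additive (Q ⧸ N)) ≠ 0 := by
      intro h
      apply hN
      rw [← QuotientGroup.eq_one_iff]
      exact h
    obtain ⟨φ, hφ⟩ := KK0_dual p hp0 hv
    apply hφ
    refine hB (fun x => φ (Additive.ofMul ((x : Q ⧸ N)))) ?_ ?_ q
    · intro x y
      change φ (Additive.ofMul (((x * y : Q) : Q ⧸ N))) = _
      rw [QuotientGroup.mk_mul, ofMul_mul, map_add]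
    · intro b hb
      change φ (Additive.ofMul ((b : Q ⧸ N))) = 0
      rw [(QuotientGroup.eq_one_iff _).2 (hBN b hb), ofMul_one, map_zero]
  have h2 : ∀ b : ℕ, ∀ q : Q, ∃ t ∈ B, ∃ r : Q, q = t * r ^ p ^ b := by
    intro b
    induction b with
    | zero =>
      intro q
      exact ⟨1, one_mem _, q, by simp⟩
    | succ b ih =>
      intro q
      obtain ⟨t, ht, r, hr⟩ := ih q
      obtain ⟨t', ht', r', hr'⟩ := h1 r
      refine ⟨t * t' ^ p ^ b, mul_mem ht (pow_mem ht' _), r', ?_⟩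
      rw [hr, hr', mul_pow, ← pow_mul, ← pow_succ', mul_assoc]
  intro q
  obtain ⟨t, ht, r, hr⟩ := h2 a q
  rw [hr, ha r, mul_one]
  exact ht

theorem tKK0 : S_KK0 := by
  intro p _ L hV0
  classical
  unfold KK
  refine iSup_le ?_
  rintro ⟨M, hM⟩
  change M ≤ L
  have hMf : ∀ g : Gal(Om/ℚ), g ∈ M.fixingSubgroup ↔ ∀ x ∈ M, g x = x := fun g =>
    IntermediateField.mem_fixingSubgroup_iff M g
  let H : Subgroup L.fixingSubgroup := M.fixingSubgroup.subgroupOf L.fixingSubgroup
  have hHm : ∀ g : L.fixingSubgroup, g ∈ H ↔ ∀ x ∈ M, (g : Gal(Om/ℚ)) x = x := fun g =>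
    Subgroup.mem_subgroupOf.trans (hMf g)
  have hHn : H.Normal := by
    refine ⟨fun n hn g => ?_⟩
    rw [hHm] at hn ⊢
    intro x hx
    have h1 : (g : Gal(Om/ℚ))⁻¹ x ∈ M := hM.galois _ (inv_mem g.2) x hx
    change (g : Gal(Om/ℚ)) ((n : Gal(Om/ℚ)) ((g : Gal(Om/ℚ))⁻¹ x)) = x
    rw [hn _ h1]
    exact (g : Gal(Om/ℚ)).apply_symm_apply x
  letI cg : CommGroup (L.fixingSubgroup ⧸ H) :=
    { QuotientGroup.Quotient.group H with
      mul_comm := by
        intro u v
        obtain ⟨a, rfl⟩ := QuotientGroup.mk_surjective (s := H) u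
        obtain ⟨b, rfl⟩ := QuotientGroup.mk_surjective (s := H) v
        change ((a * b : L.fixingSubgroup) : L.fixingSubgroup ⧸ H) =
          ((b * a : L.fixingSubgroup) : L.fixingSubgroup ⧸ H)
        rw [QuotientGroup.eq, hHm]
        intro x hx
        change ((a : Gal(Om/ℚ)) * b)⁻¹ ((b : Gal(Om/ℚ)) ((a : Gal(Om/ℚ)) x)) = x
        rw [hM.abelian b b.2 a a.2 x hx]
        exact ((a : Gal(Om/ℚ)) * b).symm_apply_apply x }
  obtain ⟨a, ha⟩ := hM.pgroup
  have key := KK0_grp (Q := L.fixingSubgroup ⧸ H) p a (by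
    intro q
    obtain ⟨r, rfl⟩ := QuotientGroup.mk_surjective (s := H) q
    change ((r ^ p ^ a : L.fixingSubgroup) : L.fixingSubgroup ⧸ H) = 1
    rw [QuotientGroup.eq_one_iff, hHm]
    intro x hx
    have := ha r r.2 x hx
    simpa using this)
    ⊥ (by
    intro f hf _
    have h1 : f 1 = 0 := by
      have h2 := hf 1 1
      rw [mul_one] at h2
      simpa using h2
    let F : Gal(Om/ℚ) → ZMod p := fun g => if h : g ∈ L.fixingSubgroup then
      f ((⟨g, h⟩ : L.fixingSubgroup) : L.fixingSubgroup ⧸ H) else 0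
    have hFM : ∀ g ∈ L.fixingSubgroup, (∀ x ∈ M, g x = x) → F g = 0 := by
      intro g hg hgM
      change (if h : g ∈ L.fixingSubgroup then
        f ((⟨g, h⟩ : L.fixingSubgroup) : L.fixingSubgroup ⧸ H) else 0) = 0
      rw [dif_pos hg]
      have h2 : ((⟨g, hg⟩ : L.fixingSubgroup) : L.fixingSubgroup ⧸ H) = 1 := by
        rw [QuotientGroup.eq_one_iff, hHm]
        exact hgM
      rw [h2, h1]
    have hFV : F ∈ VV p (Loc p) L.fixingSubgroup := by
      refine ⟨?_, ?_, ?_, ?_⟩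
      · intro g hg
        exact dif_neg hg
      · intro g hg h hh
        change (if h' : g * h ∈ L.fixingSubgroup then
          f ((⟨g * h, h'⟩ : L.fixingSubgroup) : L.fixingSubgroup ⧸ H) else 0) =
          (if h' : g ∈ L.fixingSubgroup then
          f ((⟨g, h'⟩ : L.fixingSubgroup) : L.fixingSubgroup ⧸ H) else 0) +
          (if h' : h ∈ L.fixingSubgroup then
          f ((⟨h, h'⟩ : L.fixingSubgroup) : L.fixingSubgroup ⧸ H) else 0)
        rw [dif_pos (mul_mem hg hh), dif_pos hg, dif_pos hh, ← hf]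
        rfl
      · obtain ⟨E', hE', hME⟩ := hM.fin
        have hop : IsOpen (E'.fixingSubgroup : Set Gal(Om/ℚ)) :=
          IntermediateField.fixingSubgroup_isOpen E'
        refine ⟨⟨E'.fixingSubgroup, hop⟩, ?_⟩
        intro g hg hgO
        apply hFM g hg
        intro x hx
        have hgE : g ∈ E'.fixingSubgroup := hgO
        have h2 : g ∈ (L ⊔ E').fixingSubgroup := by
          rw [IntermediateField.fixingSubgroup_sup]
          exact ⟨hg, hgE⟩
        exact (IntermediateField.mem_fixingSubgroup_iff _ g).1 h2 x (hME hx)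
      · intro Λ hΛ g hgΛ hgL
        apply hFM g hgL
        intro x hx
        rcases hΛ with ⟨P, hP, hP0, rfl⟩ | ⟨P, hP, hpP, rfl⟩
        · exact hM.unramified P hP hP0 g hgΛ hgL x hx
        · exact hM.split P hP hpP g hgΛ hgL x hx
    have hF0 : F = 0 := hV0 F hFV
    intro x
    obtain ⟨r, rfl⟩ := QuotientGroup.mk_surjective (s := H) x
    have h2 := congrFun hF0 (r : Gal(Om/ℚ))
    change (if h' : (r : Gal(Om/ℚ)) ∈ L.fixingSubgroup then
          f ((⟨r, h'⟩ : L.fixingSubgroup) : L.fixingSubgroup ⧸ H) else 0) = 0 at h2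
    rw [dif_pos r.2] at h2
    exact h2)
  have hfix : ∀ σ ∈ L.fixingSubgroup, ∀ x ∈ M, σ x = x := by
    intro σ hσ
    have h1 := key ((⟨σ, hσ⟩ : L.fixingSubgroup) : L.fixingSubgroup ⧸ H)
    rw [Subgroup.mem_bot, QuotientGroup.eq_one_iff, hHm] at h1
    exact h1
  intro x hx
  rw [← InfiniteGalois.fixedField_fixingSubgroup L, IntermediateField.mem_fixedField_iff]
  intro σ hσ
  exact hfix σ hσ x hx

end Pool.Agent.FW
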